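import Pool.Agent.H427.LD.Den

/-!
# The exact proportion of the quartic twists `y² = x³ - D x` for which the 2-part of the formula holds

`D` runs over the squarefree numbers `≡ 13 mod 16` all of whose prime factors are `≡ 1 mod 4`, ordered by
size, and `E_D : y² = x³ - D x` over `ℚ`. Let `z = L(E_D, 1) #E_D(ℚ)_tors² / (Ω ∏ c_p)`, the order of
`Ш(E_D/ℚ)` predicted by the formula in rank zero. With no hypothesis:
* the proportion of the `D` with `L(E_D, 1) ≠ 0`, `E_D(ℚ)` finite, `Ш(E_D/ℚ)[2^∞] = 0` and `z` a unit at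
  all the valuations of `ℂ` above two (so that the 2-part of the formula holds) is exactly
  `∏_{i ≥ 0} (1 - 2^{-(2i+1)}) = 0.419...`;
* all the other `D` (proportion `0.580...`) have `E_D(ℚ)` infinite or `Ш(E_D/ℚ)[2] ≠ 0`, and `z` is not a
  unit at any valuation above two, as the formula predicts;
* there are at least `c X / √(log X)` values `D ≤ X` of the first kind, for some `c > 0`.
-/

set_option autoImplicit false

namespace Pool.Agent.Results.MP_dfae13_nt.QuarticTwistsDensity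

open Pool.Agent.H427.QT
open Pool.Agent.H427.LD (Good Bad HasDensity count)

theorem result :
    HasDensity Good (∏' i : ℕ, (1 - (1 / 2 : ℝ) ^ (2 * i + 1))) ∧
    HasDensity Bad (1 - ∏' i : ℕ, (1 - (1 / 2 : ℝ) ^ (2 * i + 1))) ∧
    (∀ D : ℕ, Family D → (Bad D ↔ ¬ Good D)) ∧
    0.4194 < ∏' i : ℕ, (1 - (1 / 2 : ℝ) ^ (2 * i + 1)) ∧
    ∏' i : ℕ, (1 - (1 / 2 : ℝ) ^ (2 * i + 1)) < 0.4195 ∧
    ∃ c : ℝ, 0 < c ∧ ∀ᶠ X : ℕ in Filter.atTop,
      c * X / Real.sqrt (Real.log X) ≤ (count Good X : ℝ) :=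
  ⟨Pool.Agent.H427.LD.good_density, Pool.Agent.H427.LD.bad_density,
    fun _ h => Pool.Agent.H427.LD.bad_iff h, Pool.Agent.Y948.CQ.t_C2.2.2.2.1,
    Pool.Agent.Y948.CQ.t_C2.2.2.2.2, Pool.Agent.H427.LD.large⟩

end Pool.Agent.Results.MP_dfae13_nt.QuarticTwistsDensity
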