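import Pool.Agent.H428.T.X14c
import Pool.Graph.R_pool_sql_team_seeded_c8625f6e.K4H1.BX.Mdl
import Pool.Graph.R_pool_sql_team_seeded_c8625f6e.K4H52.DH.P1

/-!
# The `3`-part of the Birch and Swinnerton-Dyer formula for the abelian varieties `E ⊗ M`, `E` a twist of `X_0(14)`

`E = E_{-n}` is the quadratic twist of `X_0(14)` by `-n`, where `n = 7` modulo `8` is squarefree and prime to
`3`, `7` is inert in `ℚ(√-n)` and the class number of `ℚ(√-n)` is prime to `3` (`Admissible`); `E` has no
complex multiplication.  `M = ℤ^g` is a lattice with an action `ρ` of `Gal(ℚ(ζ_m)/ℚ) = (ℤ/m)ˣ` through a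
`3`-group, where `m` is squarefree and all its prime factors are `1` modulo `3`, different from `7` and inert
in `ℚ(√-n)`.  The abelian variety `A = E ⊗ M` over `ℚ` has dimension `g`; its dual is `E ⊗ M^∨`.  The `A` are
all the abelian varieties over `ℚ` that become isomorphic to `E^g` over a subfield of `ℚ(ζ_m)` of `3`-power
degree.  We prove that **the `3`-part of the formula of Birch and Swinnerton-Dyer holds for all these `A`**.
The `n` have positive lower density, also if finitely many primes `≥ 5` are prescribed to be inert (so that,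
for each squarefree `m` whose prime factors are `1` modulo `3` and different from `7`, there are such `n`).

All the terms except the volumes are prime to `3`: `A(ℚ)` and `A'(ℚ)` are finite of order prime to `3`,
`Ш(A/ℚ)[3^∞] = 0`, the `L`-function of `A` is entire, and `L(A, 1)` is the product of the volumes `V_∞` and
`V_bad` and of a rational number that is a unit at `3`.

The volumes.  The set `S` of the formula consists of `∞` and the primes that divide `m Δ`.  As `m` is
squarefree, `A` has at the primes `p ∣ m` good reduction over a tamely ramified extension; the Néron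
differential of `A` is, up to a unit at `p`, `p^(-(g - rank M^(I_p)) / 2)` times the differential given by a
basis of `M` and the Néron differential of `E`; and `∫_{A(ℚ_p)} |ω|_p` is a unit at `3`, as `E` has no point
of order `3` modulo `p` and a `3`-group acts on `M`; so these factors do not appear.  The complex
conjugation acts trivially on `M`, so that `A(ℝ) = E(ℝ)^g`.  At the primes `p ∣ Δ` the volume is the Tamagawa
number times `#𝒜⁰(𝔽_p) / p^g = det (1 - a_p / p ρ(p))`, and the Tamagawa number is prime to `3`: the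
component groups are 2-groups at `p ∣ n`, and at `p = 2` and `p = 7` the reduction is multiplicative and not
split, so that the Frobenius automorphism acts on the component group tensored with `ℤ_3` by `-ρ(p)`,
without fixed points.

The proof.  `L(A, s)` is a product of twists `L(E, χ, s)` over a family of characters of `3`-power order that
is stable under the Galois group.  The values `τ(χ) L(E, χ⁻¹, 1)` are the real period times character sums
with integral coefficients, and `3` is totally ramified in the fields of the roots of unity of `3`-power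
order, so that the product over the family is an integer congruent modulo `3` to the product of the sums
of the coefficients.  These are, modulo `3`, generalised Bernoulli numbers and so class numbers.  The group
`Ш(A)[3^∞]` is treated by restriction to the field over which `M` is trivial, where the descent is done in
the library by means of the isogenies of degree three and the class number.

The library has (in modules that are no hand-ins) the general statement for an odd `l` and a curve `E` for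
which the `l`-part is known over `ℚ` with all the terms prime to `l`, if all the primes that divide `6 l Δ`
act trivially on `M`.  Here the primes that divide `6 Δ` may act in any way (the prime divisors of `n`, and
`2`, `3`, `7`), and nothing is supposed about `E`.
-/

set_option autoImplicit false

open NumberField IsDedekindDomain WeierstrassCurve MeasureTheory Filter
open UpperHalfPlane MatrixGroups CongruenceSubgroup

namespace Pool.Agent.Results.MP_dfae13_nt.TensorOddPart

open scoped Classical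

open Pool.Agent.TH841.NF.D (Sha)
open Pool.Agent.TH841.SH.D (Pt act Gal)

/-- The curve given by the equation of `W` over the ring `R`. -/
abbrev base (W : WeierstrassCurve ℤ) (R : Type) [CommRing R] : WeierstrassCurve R :=
  W.map (Int.castRingHom R)

/-- The number of the affine points `(x, y)` over the ring `R`. -/
noncomputable def pts (W : WeierstrassCurve ℤ) (R : Type) [CommRing R] : ℕ :=
  Nat.card {P : R × R // (base W R).toAffine.Equation P.1 P.2}

/-- `4 x³ + b₂ x² + 2 b₄ x + b₆ = (2 y + a₁ x + a₃)²`. -/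
def cubic (W : WeierstrassCurve ℤ) (x : ℝ) : ℝ :=
  4 * x ^ 3 + W.b₂ * x ^ 2 + 2 * W.b₄ * x + W.b₆

/-- `∫_{W(ℝ)} |ω|` with `ω = dx / (2 y + a₁ x + a₃)`, as an integral over `x`: two real points lie
over each `x` with `cubic x > 0`. -/
noncomputable def realPeriod (W : WeierstrassCurve ℤ) : ℝ :=
  2 * ∫ x in {x : ℝ | 0 < cubic W x}, 1 / √(cubic W x)

section tensor

/-! ### The abelian variety `A = E ⊗ M`, `M = ℤ^g`

Its points over an algebraic closure of `ℚ` are the `g`-tuples of points of `E`; the Galois group of `ℚ`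
acts on them by its action on `E` and the matrices `R(σ)`. -/

/-- The action of an integral matrix on `ℤ^g ⊗ G = G^g`. -/
def mat {G : Type} [AddCommGroup G] {g : ℕ} (A : Matrix (Fin g) (Fin g) ℤ) (P : Fin g → G) :
    Fin g → G := fun i => ∑ j, A i j • P j

variable {g : ℕ} (W : WeierstrassCurve ℤ) (R : Gal ℚ →* GL (Fin g) ℤ)

/-- The points of `A` over an extension of `ℚ` over which the action on `M` is trivial. -/
abbrev PtA (g : ℕ) (L : Type) [Field L] [Algebra ℚ L] : Type := Fin g → Pt (base W ℚ) L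

/-- The action of the Galois group on the points of `A`: `σ` applied to the coordinates, and then the
matrix `R(σ)`. -/
noncomputable def actA (σ : Gal ℚ) (P : PtA W g (AlgebraicClosure ℚ)) :
    PtA W g (AlgebraicClosure ℚ) :=
  mat (R σ : Matrix (Fin g) (Fin g) ℤ) (fun i => act (base W ℚ) σ.toAlgHom (P i))

/-- `A(ℚ)`. -/
def ptsA : Set (PtA W g (AlgebraicClosure ℚ)) := {P | ∀ σ : Gal ℚ, actA W R σ P = P}

/-- `f` is a continuous cocycle with values in `A`: `f (σ τ) = f σ + σ (f τ)`. -/
def IsCocycle (f : Gal ℚ → PtA W g (AlgebraicClosure ℚ)) : Prop :=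
  IsLocallyConstant f ∧ ∀ σ τ : Gal ℚ, f (σ * τ) = f σ + actA W R σ (f τ)

/-- `f` is a coboundary: `f σ = σ P - P`. -/
def IsCoboundary (f : Gal ℚ → PtA W g (AlgebraicClosure ℚ)) : Prop :=
  ∃ P : PtA W g (AlgebraicClosure ℚ), ∀ σ : Gal ℚ, f σ = actA W R σ P - P

/-- For every embedding of the algebraic closures the restriction of `f` to the absolute Galois
group of `K` is a coboundary: `f σ = τ P - P` for `τ` in this group with restriction `σ`. -/
def LocTriv (K : Type) [Field K] [Algebra ℚ K] (f : Gal ℚ → PtA W g (AlgebraicClosure ℚ)) : Prop :=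
  ∀ ι : AlgebraicClosure ℚ →ₐ[ℚ] AlgebraicClosure K, ∃ P : PtA W g (AlgebraicClosure K),
    ∀ (τ : Gal K) (σ : Gal ℚ), (∀ x, τ (ι x) = ι (σ x)) →
      (fun i => act (base W ℚ) ι (f σ i)) = mat (R σ : Matrix (Fin g) (Fin g) ℤ)
        (fun i => act (base W ℚ) (τ.toAlgHom.restrictScalars ℚ) (P i)) - P

/-- `f` is a continuous cocycle that is locally trivial at all the places of `ℚ`; its class is an
element of `Ш(A/ℚ)`, and this is zero if and only if `f` is a coboundary. -/
def IsShaCocycle (f : Gal ℚ → PtA W g (AlgebraicClosure ℚ)) : Prop :=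
  IsCocycle W R f ∧ (∀ (p : ℕ) [Fact p.Prime], LocTriv W R ℚ_[p] f) ∧ LocTriv W R ℝ f

end tensor

section lattice

variable {m g : ℕ} (ρ : (ZMod m)ˣ →* GL (Fin g) ℤ)

/-- The matrix `ρ(p)` of the Frobenius automorphism at a prime `p` that does not divide `m`. -/
noncomputable def frob (p : ℕ) : Matrix (Fin g) (Fin g) ℤ :=
  if h : p.Coprime m then (ρ (ZMod.unitOfCoprime p h) : Matrix (Fin g) (Fin g) ℤ) else 0

/-- The Euler polynomial of `A = E ⊗ M` at a prime `p` of good reduction that does not divide `m`,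
`det (1 - T Frob_p | H¹(A)) = det (1 - a_p T ρ(p) + p T² ρ(p)²)`, where `a_p = p - pts` as `pts` does not
count the point at infinity. -/
noncomputable def P (W : WeierstrassCurve ℤ) (p : ℕ) (T : ℂ) : ℂ :=
  (1 - ((((p : ℤ) - pts W (ZMod p) : ℤ) : ℂ) * T) • (frob ρ p).map (Int.cast : ℤ → ℂ) +
    ((p : ℂ) * T ^ 2) • ((frob ρ p).map (Int.cast : ℤ → ℂ)) ^ 2).det

/-- `det (1 - a_p / p ρ(p)) = #𝒜⁰(𝔽_p) / p^g` at a prime `p` of bad reduction of `E` that does not
divide `m`. -/
noncomputable def bad (W : WeierstrassCurve ℤ) (p : ℕ) : ℝ :=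
  (1 - ((((p : ℤ) - pts W (ZMod p) : ℤ) : ℝ) / p) • (frob ρ p).map (Int.cast : ℤ → ℝ)).det

/-- The vectors of `M` fixed by the subgroup `H`. -/
noncomputable def fixed (H : Subgroup (ZMod m)ˣ) : Submodule ℤ (Fin g → ℤ) :=
  ⨅ u : H, LinearMap.ker (Matrix.toLin' ((ρ (u : (ZMod m)ˣ) : Matrix (Fin g) (Fin g) ℤ) - 1))

/-- The inertia group at the prime `p ∣ m`, for `m` squarefree: the units congruent to `1` modulo
`m / p`. -/
def inertia (m p : ℕ) : Subgroup (ZMod m)ˣ where
  carrier := {u | ∃ k : ZMod m, (u : ZMod m) = 1 + k * ((m / p : ℕ) : ZMod m)}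
  one_mem' := ⟨0, by simp⟩
  mul_mem' := by
    rintro u v ⟨k, hk⟩ ⟨j, hj⟩
    refine ⟨k + j + k * j * ((m / p : ℕ) : ZMod m), ?_⟩
    rw [Units.val_mul, hk, hj]
    ring
  inv_mem' := by
    rintro u ⟨k, hk⟩
    refine ⟨-k * ((u⁻¹ : (ZMod m)ˣ) : ZMod m), ?_⟩
    have h1 : ((u⁻¹ : (ZMod m)ˣ) : ZMod m) * (u : ZMod m) = 1 := Units.inv_mul u
    have h2 : ((u⁻¹ : (ZMod m)ˣ) : ZMod m) * (1 + k * ((m / p : ℕ) : ZMod m)) = 1 := by
      rw [← hk]; exact h1
    linear_combination h2

/-- The Artin conductor of `M`, `∏_{p ∣ m} p^(g - rank M^(I_p))`, for `m` squarefree. -/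
noncomputable def cond : ℕ :=
  ∏ p ∈ m.primeFactors, p ^ (g - Module.finrank ℤ (fixed ρ (inertia m p)))

/-- `V_∞`, the volume of `A(ℝ) = E(ℝ)^g` for the Néron differential of `A`. -/
noncomputable def Vinf (W : WeierstrassCurve ℤ) : ℝ := realPeriod W ^ g / √(cond ρ : ℝ)

end lattice

/-- The contragredient: `A ↦ (A⁻¹)ᵀ`.  It gives the action on the dual lattice `M^∨`. -/
noncomputable def contra (g : ℕ) : GL (Fin g) ℤ →* GL (Fin g) ℤ where
  toFun A := ⟨((A⁻¹ : GL (Fin g) ℤ) : Matrix (Fin g) (Fin g) ℤ).transpose,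
    ((A : GL (Fin g) ℤ) : Matrix (Fin g) (Fin g) ℤ).transpose, by
      rw [← Matrix.transpose_mul, ← Units.val_mul, mul_inv_cancel, Units.val_one,
        Matrix.transpose_one], by
      rw [← Matrix.transpose_mul, ← Units.val_mul, inv_mul_cancel, Units.val_one,
        Matrix.transpose_one]⟩
  map_one' := by
    apply Units.ext
    show ((1⁻¹ : GL (Fin g) ℤ) : Matrix (Fin g) (Fin g) ℤ).transpose = 1
    rw [inv_one, Units.val_one, Matrix.transpose_one]
  map_mul' A B := by
    apply Units.ext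
    show (((A * B)⁻¹ : GL (Fin g) ℤ) : Matrix (Fin g) (Fin g) ℤ).transpose =
      ((A⁻¹ : GL (Fin g) ℤ) : Matrix (Fin g) (Fin g) ℤ).transpose *
        ((B⁻¹ : GL (Fin g) ℤ) : Matrix (Fin g) (Fin g) ℤ).transpose
    rw [mul_inv_rev, Units.val_mul, Matrix.transpose_mul]

/-- **The `l`-part of the formula of Birch and Swinnerton-Dyer** for `A = E ⊗ M` over `ℚ`: the groups of
the rational points of `A` and of its dual are finite of order prime to `l`; the `l`-primary part of the
Tate-Shafarevich group is zero; the `L`-function (the Euler product over the primes that do not divide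
`m Δ`) is entire and its order at `s = 1` is the rank `0`; and
`L(A, 1) = r V_∞ ∏_{p ∣ Δ} #𝒜⁰(𝔽_p) / p^g`, where `r` is a rational number and a unit at `l`.  Here `κ` is
the cyclotomic character, and `ρ ∘ κ` the action of the Galois group of `ℚ` on `M`. -/
structure LPart (l : ℕ) (W : WeierstrassCurve ℤ) {m g : ℕ} (ρ : (ZMod m)ˣ →* GL (Fin g) ℤ)
    (κ : Gal ℚ →* (ZMod m)ˣ) : Prop where
  points : Finite (ptsA W (ρ.comp κ)) ∧ ¬ l ∣ Nat.card (ptsA W (ρ.comp κ))
  dual : Finite (ptsA W (((contra g).comp ρ).comp κ)) ∧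
    ¬ l ∣ Nat.card (ptsA W (((contra g).comp ρ).comp κ))
  sha : ∀ f, IsShaCocycle W (ρ.comp κ) f → ∀ k : ℕ, IsCoboundary W (ρ.comp κ) (l ^ k • f) →
    IsCoboundary W (ρ.comp κ) f
  formula : ∃ L : ℂ → ℂ, Differentiable ℂ L ∧
    (∀ s : ℂ, 3 / 2 < s.re → HasProd (fun p : Nat.Primes =>
      if ((p : ℕ) : ℤ) ∣ m * W.Δ then 1 else (P ρ W p (((p : ℕ) : ℂ) ^ (-s)))⁻¹) (L s)) ∧
    analyticOrderAt L 1 = 0 ∧
    ∃ r : ℚ, L 1 = r * (Vinf ρ W * ∏ p ∈ W.Δ.natAbs.primeFactors, bad ρ W p : ℝ) ∧
      r ≠ 0 ∧ padicValRat l r = 0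

/-- The quadratic twist `E_D` of `X_0(14)` (`D = 1` modulo `4`), with its global minimal equation
`y² + x y + y = x³ + ((D - 1)/4) x² + ((9 D² - 1)/2) x - (23 D³ + 1)/4`.  It is isomorphic to
`Y² = X (X² + 13 D X + 128 D²)` by `X = 4 (x - D)`, `Y = 4 (2 y + x + 1)`. -/
def twist (D : ℤ) : WeierstrassCurve ℤ :=
  ⟨1, (D - 1) / 4, 1, (9 * D ^ 2 - 1) / 2, -((23 * D ^ 3 + 1) / 4)⟩

/-- `n` is squarefree, `n = 7` modulo `8`, `n` is prime to `3`, the prime `7` is inert in `ℚ(√-n)`,
and the class number of `ℚ(√-n)` is prime to `3`. -/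
def Admissible (n : ℕ) : Prop :=
  Squarefree n ∧ n % 8 = 7 ∧ ¬ 3 ∣ n ∧ jacobiSym (-(n : ℤ)) 7 = -1 ∧
    ∀ (k : Type) [Field k] [NumberField k], Module.finrank ℚ k = 2 → (∃ x : k, x ^ 2 = -(n : k)) →
      ¬ 3 ∣ Fintype.card (ClassGroup (𝓞 k))

theorem assemble {l : ℕ} (hl : l.Prime) {W : WeierstrassCurve ℤ} (hΔ : W.Δ ≠ 0) {m : ℕ} [NeZero m]
    (hsq : Squarefree m) (hlm : ¬ l ∣ m)
    (hm : ∀ p : ℕ, p.Prime → p ∣ m → ¬ (p : ℤ) ∣ W.Δ ∧ ¬ l ∣ pts W (ZMod p) + 1)
    (hT : Pool.Agent.H428.T.Tw l W m (realPeriod W))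
    {g n : ℕ} (ρ : (ZMod m)ˣ →* GL (Fin g) ℤ) (hρ : ∀ u, ρ u ^ (l ^ n) = 1)
    (hA : Pool.Agent.H428.T.Triv l W (Pool.Agent.Y702.A.fieldOf ρ (CyclotomicField m ℚ)))
    (κ : Gal ℚ →* (ZMod m)ˣ)
    (hκ : ∀ (σ : Gal ℚ) (ζ : AlgebraicClosure ℚ), ζ ^ m = 1 → σ ζ = ζ ^ ((κ σ : ZMod m)).val) :
    LPart l W ρ κ := by
  obtain ⟨a1, a2, a3⟩ := Pool.Agent.H428.T.alg_lib hl ρ hρ κ hκ hA
  obtain ⟨L, b1, b2, b3, r, b4, b5, b6⟩ := Pool.Agent.H428.T.lib_an hl hΔ hT hsq hlm hm ρ hρ
  refine ⟨a1, a2, ?_, L, b1, b2, b3, r, b4, b5, b6⟩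
  intro f hf k hk
  exact Pool.Agent.H428.T.sha_coc (ρ.comp κ) a3 f hf k hk

/-- **Main theorem.** (1) Let `E = E_{-n}` for an admissible `n`, let `m` be squarefree and let all prime
factors of `m` be `1` modulo `3`, different from `7` and inert in `ℚ(√-n)`; let `κ` be the cyclotomic
character modulo `m`, and `ρ` an action of `(ℤ/m)ˣ` on `M = ℤ^g` through a `3`-group, where `g` is arbitrary.
Then the 3-part of the formula of Birch and Swinnerton-Dyer holds for `A = E ⊗ M`, and all terms other than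
the volumes are prime to `3`.

(2) For every finite set `S` of primes `≥ 5`, the admissible `n` such that all the primes in `S` are
inert in `ℚ(√-n)` have positive lower density. -/
theorem result :
    (∀ n : ℕ, Admissible n → ∀ (m : ℕ) [NeZero m], Squarefree m →
      (∀ p : ℕ, p.Prime → p ∣ m → p % 3 = 1 ∧ jacobiSym (-(n : ℤ)) p = -1 ∧ p ≠ 7) →
      ∀ (g k : ℕ) (ρ : (ZMod m)ˣ →* GL (Fin g) ℤ), (∀ u, ρ u ^ (3 ^ k) = 1) →
      ∀ κ : Gal ℚ →* (ZMod m)ˣ,
      (∀ (σ : Gal ℚ) (ζ : AlgebraicClosure ℚ), ζ ^ m = 1 → σ ζ = ζ ^ ((κ σ : ZMod m)).val) →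
      LPart 3 (twist (-n)) ρ κ) ∧
    (∀ S : Finset ℕ, (∀ p ∈ S, p.Prime ∧ 5 ≤ p) →
      ∃ d > (0 : ℝ), ∀ᶠ X : ℕ in atTop,
        d * X ≤ (((Finset.range (X + 1)).filter fun n =>
          Admissible n ∧ ∀ p ∈ S, jacobiSym (-(n : ℤ)) p = -1).card : ℝ)) := by
  refine ⟨?_, ?_⟩
  · rintro n ⟨h1, h2, h3, h4, h5⟩ m _ hsq hm g k ρ hρ κ hκ
    obtain ⟨L, _, _, hL, x, hx⟩ := Pool.Agent.K4H1.BX.exists_model (n := n) (by omega)
    obtain ⟨a1, a2, a3, a4⟩ := Pool.Agent.H428.T.X.main14 h1 h2 h3 h4 L hL x hx (h5 L hL ⟨x, hx⟩)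
      hsq hm
    exact assemble Nat.prime_three (Pool.Agent.K4H1.BX.WM_disc_ne (by omega)) hsq a2 a1 a3 ρ hρ
      (a4 g k ρ hρ) κ hκ
  · intro S hS
    obtain ⟨d, hd, hX⟩ := Pool.Agent.K4H52.DH.P1 (insert 7 S) (by
      intro l hl
      rw [Finset.mem_insert] at hl
      rcases hl with rfl | hl
      · exact ⟨by norm_num, by norm_num⟩
      · exact hS l hl)
    refine ⟨d, hd, ?_⟩
    filter_upwards [hX] with X hX
    refine hX.trans ?_
    norm_cast
    refine Finset.card_le_card ?_
    intro n hn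
    rw [Finset.mem_filter] at hn ⊢
    obtain ⟨hr, h1, h2, h3, h4, h5⟩ := hn
    exact ⟨hr, ⟨h1, h2, h3, h4 7 (Finset.mem_insert_self _ _), h5⟩,
      fun l hl => h4 l (Finset.mem_insert_of_mem hl)⟩

end Pool.Agent.Results.MP_dfae13_nt.TensorOddPart
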