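import Pool.Agent.H428.AT.All

/-!
# The `3`-part of the leading-term formula for the twists of abelian varieties of all even dimensions

`K = ℚ(√-3)`, and `E_B` is the elliptic curve `y² + B y = x³` over `K`, where `B` is an element of `𝓞 K`
which is cube-free and prime to `3`.  For a `g`-tuple `B = (B_1, …, B_g)` of such elements

  `A_B = Res_{K/ℚ} (E_{B_1} × ⋯ × E_{B_g})`

is an abelian variety of dimension `2 g` over `ℚ`, isomorphic to its dual `A'`.  For `g = 1` it is an
abelian surface, in general simple over `ℚ` (if `B` divided by its conjugate is not a cube up to a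
unit), with multiplication by `ℤ[ω]` over `ℚ`.  All the terms of the formula

  `L(A, 1) #A(ℚ)_tors #A'(ℚ)_tors = #Ш(A) V_∞ V_bad`

are those of the problem, for an arbitrary finite set `S` of places which contains the bad ones:

* `A(L)`, for `L` algebraically closed, is the product of the groups `E_{B_i}(L)` for all `i` and all the
  embeddings of `K` in `L` (`A`), `A(ℚ)` is the group of the Galois invariant points over the algebraic
  numbers (`RatPts`), and `Ш(A)` is given by the continuous cocycles with values in `A` of the algebraic
  numbers which are locally trivial at all the places of `ℚ` (`KillsSha`).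
* `P_p(T) = ∏_{v ∣ p} ∏_i (1 - a_v T^f + q_v T^{2 f})`, `q_v = p^f`, `a_v = q_v + 1 - #E_{B_i}(k_v)` (`euler` is
  the value at `T = p^{-s}`), and `L(A, s)` is the product over the prime numbers outside `S`
  (`IsLFunction`).
* The differential `ω` of the Néron model is `dt_1 ∧ dt_2 ∧ ⋯`, where `t = t_1 + t_2 θ`, `𝓞 K = ℤ + ℤ θ`, is the
  coordinate for which `dt` is `dx / (2 y + B)`; so `V_∞` is the product of the integrals of `|dt ∧ dt̄|` over
  the `E_{B_i}(ℂ)`, twice the areas of the period lattices, divided by `√3` (`Vinf`).
* The integral over `A(ℚ_p)` is the product over `v ∣ p` and `i` of `c_v(E_{B_i}) #Ẽ_{B_i}(k_v) / q_v`, where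
  `Ẽ` is the group of the nonsingular points of the reduction (`Vbad`).

EACH ABELIAN VARIETY.  `B` is excluded if it is `± 1` modulo `3` with a norm `1` modulo `9`; the class
`InClass` consists of all the cube-free `B` prime to `3` which are not units and not excluded.  For ALL
`B_i` of the class the predicted order `z` of `Ш(A)` is a rational number, the same for all `S`,
nonnegative and integral at `3`; it is a unit at `3` (so `L(A, 1) ≠ 0`) IF AND ONLY IF `A(ℚ)` is finite and
`Ш(A)` has trivial `3`-primary part.  This is the case if and only if all the `E_{B_i}(K)` are finite and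
the `3`-primary parts of all the `Ш(E_{B_i}/K)` are trivial, and if and only if all the coranks of the
`B_i`, which are given by the cubic residue symbols between the prime divisors of `B_i`, are zero.

THE TWISTS OF A FIXED ABELIAN VARIETY.  Let `C_1, …, C_g` be cube-free and prime to `3`.
* ALL THE CUBIC TWISTS (`g ≥ 1`).  Let `D` run through ALL the cube-free elements prime to `3` and to the
  `C_i`, ordered by the norm, and `B_i = C_i D`; no quotient `C_i / C_j`, `i ≠ j`, is a cube.  The share of the
  `D` for which all the `B_i` are of the class is `(9 - n) / 9`, `n = number C ≤ g`, and the share of the `D`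
  for which moreover the `3`-part of the formula for `A_B` holds in the form above is `(9 - n) / 9 * p₀ ^ g`,
  `p₀ = 0.639…`.  The surfaces `Res E_{B_i}` are independent: for each set `T` of indices the share of the
  `D` for which it holds exactly for those with `i ∈ T` is `(9 - n) / 9 * p₀ ^ #T * (1 - p₀) ^ (g - #T)`.
  For `g = 1`, `C_1 = 1` this is the family of ALL the `E_B`, `B` cube-free and prime to `3`, and the share
  is `8 / 9 * p₀ > 0.568`.
* THE SQUAREFREE TWISTS.  The same for the `D` which are squarefree and prime to `3` and to the `C_i`, and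
  `B_i = C_i D` or `B_i = C_i D²`, the choice depending on `i` only, where neither `B_i / B_j` nor `B_i B_j`,
  `i ≠ j`, is identically a cube.

The passage from the squarefree to the cube-free `D = c² D'` (`H428/AX`): for each fixed squarefree `c ≡ 1`
modulo `3` the law of the squarefree `D'` is applied to the abelian variety of the `C_i c²`, and the
`c` of large norm contribute at most a constant times the sum of `X / N(c)²`.
-/

set_option autoImplicit false

namespace Pool.Agent.Results.MP_dfae13_nt.TwistsThreePart

open NumberField
open Pool.Agent.H428.AS (torsOrder)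
open Pool.Agent.H428.AT.St

/-- **Main theorem.** -/
theorem result (K : Type) [Field K] [NumberField K] [IsCyclotomicExtension {3} ℚ K] :
    -- (1) the two sides of the formula for each `A` given by elements of the class
    (∀ (g : ℕ) (B : Fin g → 𝓞 K), (∀ i, InClass (B i)) →
      torsOrder (A B) ≠ 0 ∧ padicValNat 3 (torsOrder (A B)) = g ∧ ValueLaw B ∧
      (ThreePart B ↔ Trivial B) ∧ (Trivial B ↔ ∀ i, TrivialOver (curve (B i : K))) ∧
      (Trivial B ↔ ∀ i, Corank (B i) 0)) ∧
    -- (2) the twists of a fixed abelian variety by the squarefree elements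
    (∀ (g : ℕ) (C : Fin g → 𝓞 K) (m : Fin g → Bool), (∀ i, CubefreePrimeToThree (C i)) →
      (∀ X, (all C X).Finite) ∧
      (∃ c : ℝ, 0 < c ∧ ∃ X₀ : ℕ, ∀ X : ℕ, X₀ ≤ X → c * X ≤ ((all C X).ncard : ℝ)) ∧
      (∀ X, ∀ D ∈ inClass C m X, ∀ i, InClass (twist C m D i)) ∧
      number C m ≤ g ∧ number C m ≤ 9 ∧
      HasShare (all C) (fun X => inClass C m X) ((9 - number C m) / 9) ∧
      (Different C m →
        HasShare (all C) (fun X => {D ∈ inClass C m X | ThreePart (twist C m D)})
          ((9 - number C m) / 9 * p₀ ^ g) ∧
        ∀ T : Finset (Fin g), HasShare (all C)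
          (fun X => {D ∈ inClass C m X | ∀ i, ThreePart (fun _ : Fin 1 => twist C m D i) ↔ i ∈ T})
          ((9 - number C m) / 9 * (p₀ ^ T.card * (1 - p₀) ^ (g - T.card))))) ∧
    -- (3) the twists of a fixed abelian variety by ALL the cube-free elements
    (∀ (g : ℕ) (C : Fin g → 𝓞 K), 0 < g → (∀ i, CubefreePrimeToThree (C i)) →
      (∀ X, (allCubefree C X).Finite ∧ all C X ⊆ allCubefree C X) ∧
      HasShare (allCubefree C) (fun X => {D ∈ allCubefree C X | ∀ i, InClass (C i * D)})
        ((9 - number C fun _ => false) / 9) ∧
      (Different C (fun _ => false) →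
        HasShare (allCubefree C)
          (fun X => {D ∈ allCubefree C X | (∀ i, InClass (C i * D)) ∧ ThreePart fun i => C i * D})
          ((9 - number C fun _ => false) / 9 * p₀ ^ g) ∧
        ∀ T : Finset (Fin g), HasShare (allCubefree C)
          (fun X => {D ∈ allCubefree C X | (∀ i, InClass (C i * D)) ∧
            ∀ i, ThreePart (fun _ : Fin 1 => C i * D) ↔ i ∈ T})
          ((9 - number C fun _ => false) / 9 * (p₀ ^ T.card * (1 - p₀) ^ (g - T.card))))) ∧
    (0.639 < p₀ ∧ p₀ < 0.6391) :=
  have h := Pool.Agent.H428.AT.St.main K
  ⟨h.1, h.2.1, Pool.Agent.H428.AT.St.all_main K, h.2.2⟩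

end Pool.Agent.Results.MP_dfae13_nt.TwistsThreePart
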